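import Pool.Agent.TH249.FX.Prod

/-!
# Invariant complex structures and fixed points

Q1 asks whether every closed almost complex manifold of real dimension `≥ 6` has a complex
structure, i.e. (Newlander and Nirenberg) an almost complex structure whose Nijenhuis tensor
vanishes. In dimension `4` there are closed almost complex manifolds `X` without complex structure.

We show that almost complex structures which are invariant under some maps `σ i` restrict to the
fixed points, and that the restriction is integrable if the structure is. Therefore for the products
`X × Y`, with maps `id × τ i` which have an isolated fixed point `y₀` in `Y`, and for the squares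
`X × X`, with `(x, y) ↦ (y, x)`, there is an invariant complex structure if and only if `X` has a
complex structure. So the version of Q1 for almost complex structures with a symmetry fails in all
dimensions: for example for `X × Y`, `X` a closed almost complex `4`-manifold without complex
structure, `Y` a product of 2-spheres with the rotation by `π` in each factor. In particular Q1
cannot be proved by any procedure which respects the diffeomorphisms (such as a geometric flow).

Definitions (`Pool.Agent.TH249.FX.Loc`, `.Man`): `nij J z u v` is the Nijenhuis tensor of a field of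
endomorphisms `J` of a vector space; `loc f x x'` is the map `f` in the charts at `x` and at `x'`;
`Dom f x x' z` says that `z` is in its domain; `ACS I M` are the smooth almost complex structures
on `M`, given by their representations in the charts at all points; `Holo A A' f`: the derivative
of `f` commutes with the almost complex structures; `A.Integrable`: the Nijenhuis tensor of `A`
vanishes in all charts.
-/

set_option autoImplicit false

open scoped Manifold ContDiff

namespace Pool.Agent.Results.MP_1d980c_gt.InvariantStructures

open Pool.Agent.TH249.FX

universe u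

/-- Let `X` and `Y` be smooth manifolds without boundary of finite dimension.

(1) Let `f : X → Y` be an immersion whose image consists of common fixed points of smooth maps
`σ i : Y → Y`, such that the image of the derivative of `f` consists of all tangent vectors which
are fixed by the derivatives of all `σ i`. Then each almost complex structure `A` on `Y` for which
the `σ i` are holomorphic induces an almost complex structure on `X` for which `f` is holomorphic,
and it is integrable if `A` is.

(2) Let `τ i : Y → Y` be smooth maps with a common fixed point `y₀` at which no nonzero tangent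
vector is fixed by the derivatives of all `τ i`. If `X × Y` has an integrable almost complex
structure which is invariant under all `id × τ i`, then `X` has an integrable almost complex
structure. If `X` and `Y` have almost complex structures, that of `Y` invariant under the `τ i`,
then `X × Y` has one which is invariant under the `id × τ i`, and it is integrable if both are.

In particular, if `X` has an almost complex structure but no integrable one and `Y` has an almost
complex structure which is invariant under the `τ i`, then there is no map `Φ` from the almost
complex structures to the integrable ones on `X × Y` such that `Φ A` is invariant under the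
`id × τ i` whenever `A` is.

(3) `X × X` has an integrable almost complex structure which is invariant under `(x, y) ↦ (y, x)`
if and only if `X` has an integrable almost complex structure; and `X × X` has an invariant almost
complex structure if and only if `X` has one. -/
theorem result {E H : Type u} [NormedAddCommGroup E] [NormedSpace ℝ E] [FiniteDimensional ℝ E]
    [TopologicalSpace H] (I : ModelWithCorners ℝ E H) [I.Boundaryless]
    (X : Type u) [TopologicalSpace X] [ChartedSpace H X] [IsManifold I ∞ X]
    {F G : Type u} [NormedAddCommGroup F] [NormedSpace ℝ F] [FiniteDimensional ℝ F]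
    [TopologicalSpace G] (J : ModelWithCorners ℝ F G) [J.Boundaryless]
    (Y : Type u) [TopologicalSpace Y] [ChartedSpace G Y] [IsManifold J ∞ Y] (ι : Type u) :
    (∀ (f : X → Y) (σ : ι → Y → Y), ContMDiff I J ∞ f → (∀ i, ContMDiff J J ∞ (σ i)) →
      (∀ i x, σ i (f x) = f x) → (∀ x, Function.Injective (mfderiv I J f x)) →
      (∀ (x : X) (w : F), (∀ i, (mfderiv J J (σ i) (f x) : F →L[ℝ] F) w = w) →
        ∃ v : E, (mfderiv I J f x : E →L[ℝ] F) v = w) →
      ∀ A : ACS J Y, (∀ i, Holo A A (σ i)) →
        ∃ B : ACS I X, Holo B A f ∧ (A.Integrable → B.Integrable)) ∧
    (∀ (τ : ι → Y → Y) (y₀ : Y), (∀ i, ContMDiff J J ∞ (τ i)) → (∀ i, τ i y₀ = y₀) →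
      (∀ w : F, (∀ i, (mfderiv J J (τ i) y₀ : F →L[ℝ] F) w = w) → w = 0) →
        (∀ B : ACS (I.prod J) (X × Y), (∀ i, Holo B B (Prod.map id (τ i))) → B.Integrable →
          ∃ A : ACS I X, A.Integrable) ∧
        (∀ (A : ACS I X) (C : ACS J Y), (∀ i, Holo C C (τ i)) →
          ∃ B : ACS (I.prod J) (X × Y), (∀ i, Holo B B (Prod.map id (τ i))) ∧
            (A.Integrable → C.Integrable → B.Integrable)) ∧
        (Nonempty (ACS I X) → (¬ ∃ A : ACS I X, A.Integrable) →
          (∃ C : ACS J Y, ∀ i, Holo C C (τ i)) →
            ¬ ∃ Φ : ACS (I.prod J) (X × Y) → ACS (I.prod J) (X × Y),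
              (∀ B, (Φ B).Integrable) ∧
                ∀ B, (∀ i, Holo B B (Prod.map id (τ i))) →
                  ∀ i, Holo (Φ B) (Φ B) (Prod.map id (τ i)))) ∧
    ((∃ B : ACS (I.prod I) (X × X), Holo B B Prod.swap ∧ B.Integrable) ↔
      ∃ A : ACS I X, A.Integrable) ∧
    ((∃ B : ACS (I.prod I) (X × X), Holo B B Prod.swap) ↔ Nonempty (ACS I X)) := by
  refine ⟨fun f σ hf hσ hfix himm hker A hA => ?_, fun τ y₀ hτ h0 hd => ⟨fun B hB hint => ?_,
    fun A C hC => ?_, ?_⟩, ⟨?_, ?_⟩, ⟨?_, ?_⟩⟩
  · refine restrict hf hσ hfix (fun x => ?_) (fun x w hw => ?_) A hA
    · rw [← mfderiv_eq hf x]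
      exact himm x
    · obtain ⟨v, hv⟩ := hker x w (fun i => by
        rw [mfderiv_eq (hσ i) (f x)]
        unfold md
        rw [hfix i x]
        exact hw i)
      refine ⟨v, ?_⟩
      rw [← mfderiv_eq hf x]
      exact hv
  · obtain ⟨A, -, hA⟩ := factor hτ h0 hd B hB
    exact ⟨A, hA hint⟩
  · exact ⟨A.prod C, fun i => holo_prod contMDiff_id (hτ i) (holo_id A) (hC i),
      fun h1 h2 => integrable_prod h1 h2⟩
  · rintro ⟨A⟩ hX ⟨C, hC⟩ ⟨Φ, hΦ, hinv⟩
    obtain ⟨A', -, hA'⟩ := factor hτ h0 hd (Φ (A.prod C))
      (hinv _ fun i => holo_prod contMDiff_id (hτ i) (holo_id A) (hC i))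
    exact hX ⟨A', hA' (hΦ _)⟩
  · rintro ⟨B, hB, hint⟩
    obtain ⟨A, -, hA⟩ := square B hB
    exact ⟨A, hA hint⟩
  · rintro ⟨A, hA⟩
    exact ⟨A.prod A, holo_swap A, integrable_prod hA hA⟩
  · rintro ⟨B, hB⟩
    obtain ⟨A, -, -⟩ := square B hB
    exact ⟨A⟩
  · rintro ⟨A⟩
    exact ⟨A.prod A, holo_swap A⟩

end Pool.Agent.Results.MP_1d980c_gt.InvariantStructures
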